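import Pool.Agent.Q181.Ponag.Space

open Set Topology Filter

namespace Pool.Agent.Results.MP_4977a6_gt.BobWinsPonagNotMenger

open MP4977a6

/-- **MP_4977a6_gt, Q1: no.** There is a (Hausdorff) Menger space `X` such that Bob has a winning
strategy in `PONAG(X)`, but Bob has no winning strategy in the Menger game on `X`. -/
theorem result : ∃ (X : Type) (_ : TopologicalSpace X),
    T2Space X ∧ Menger X ∧ BobWinsPONAG X ∧ ¬ BobWinsMengerGame X := by
  obtain ⟨S, hS1, hS2⟩ := exists_S
  have hM : Menger (Yset S) := menger_of_mengerSet (mengerSet_Y S hS2)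
  refine ⟨Ext (Yset S), inferInstance, inferInstance, menger_ext hM, bobWinsPONAG_ext hM, ?_⟩
  intro h
  obtain ⟨K, hK, hcov⟩ := sigma_compact_of_bobWins (bobWins_of_ext h)
  exact not_sigma_compact S hS1 hS2 K hK hcov

end Pool.Agent.Results.MP_4977a6_gt.BobWinsPonagNotMenger
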